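import Pool.Agent.W502.POT.Defs

/-!
# Permanent on top for 4x4 matrices: reduction to three Hermitian forms
-/

set_option autoImplicit false

namespace Pool.Agent.W899.POT

open Matrix Pool.Agent.W502.POT
open scoped ComplexOrder

/-- the sign as a complex number -/
noncomputable def sg (g : Equiv.Perm (Fin 4)) : ℂ := (((Equiv.Perm.sign g : ℤˣ) : ℤ) : ℂ)

lemma sg_mul (g h : Equiv.Perm (Fin 4)) : sg (g * h) = sg g * sg h := by
  simp [sg]

lemma sg_inv (g : Equiv.Perm (Fin 4)) : sg g⁻¹ = sg g := by
  simp [sg]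

lemma sg_one : sg 1 = 1 := by
  simp [sg]

lemma star_sg (g : Equiv.Perm (Fin 4)) : star (sg g) = sg g := by
  simp [sg]

lemma mact_mul : ∀ g s : Equiv.Perm (Fin 4), ∀ m, mact (g * s) m = mact g (mact s m) := by
  decide +kernel

lemma mact_one : ∀ m, mact 1 m = m := by
  decide

section gen

variable {I : Type} [Fintype I] [DecidableEq I]

/-- partial sums of `x` -/
noncomputable def cc (α : Equiv.Perm (Fin 4) → I → I) (w x : Equiv.Perm (Fin 4) → ℂ) (j i : I) : ℂ :=
  ∑ s, if α s j = i then w s * x s else 0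

lemma key (α : Equiv.Perm (Fin 4) → I → I) (hm : ∀ g s i, α (g * s) i = α g (α s i))
    (h1 : ∀ i, α 1 i = i) (w : Equiv.Perm (Fin 4) → ℂ) (hw : ∀ g s, w (g * s) = w g * w s)
    (hws : ∀ g, star (w g) = w g) (hwi : ∀ g, w g⁻¹ = w g) (x : Equiv.Perm (Fin 4) → ℂ)
    (g : Equiv.Perm (Fin 4)) :
    ∑ j, ∑ i, star (cc α w x j i) * (w g * cc α w x j (α g i)) =
      ∑ s, ∑ t, star (x s) * x t *
        (w ((g * s)⁻¹ * t) * ((Finset.univ.filter (fun i => α ((g * s)⁻¹ * t) i = i)).card : ℂ)) := by
  have e1 : ∀ j, ∑ i, star (cc α w x j i) * (w g * cc α w x j (α g i)) =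
      ∑ s, ∑ t, star (x s) * x t * (w ((g * s)⁻¹ * t) *
        (if α ((g * s)⁻¹ * t) j = j then 1 else 0)) := by
    intro j
    have e2 : ∀ i, star (cc α w x j i) * (w g * cc α w x j (α g i)) =
        ∑ s, if α s j = i then star (w s * x s) * (w g * cc α w x j (α g i)) else 0 := by
      intro i
      rw [cc, star_sum, Finset.sum_mul]
      refine Finset.sum_congr rfl fun s _ => ?_
      split_ifs <;> simp
    rw [Finset.sum_congr rfl fun i _ => e2 i, Finset.sum_comm]
    refine Finset.sum_congr rfl fun s _ => ?_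
    rw [Finset.sum_ite_eq, if_pos (Finset.mem_univ _), cc, Finset.mul_sum, Finset.mul_sum]
    refine Finset.sum_congr rfl fun t _ => ?_
    have hiff : α t j = α g (α s j) ↔ α ((g * s)⁻¹ * t) j = j := by
      rw [← hm, hm (g * s)⁻¹ t]
      constructor
      · intro h
        rw [h, ← hm, inv_mul_cancel, h1]
      · intro h
        conv_rhs => rw [← h]
        rw [← hm, mul_inv_cancel, h1]
    have hww : w ((g * s)⁻¹ * t) = w g * w s * w t := by
      rw [hw, hwi, hw]
    by_cases hc : α t j = α g (α s j)
    · rw [if_pos hc, if_pos (hiff.1 hc), hww, star_mul', hws]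
      ring
    · rw [if_neg hc, if_neg (fun h => hc (hiff.2 h))]
      ring
  rw [Finset.sum_congr rfl fun j _ => e1 j, Finset.sum_comm]
  refine Finset.sum_congr rfl fun s _ => ?_
  rw [Finset.sum_comm]
  refine Finset.sum_congr rfl fun t _ => ?_
  rw [← Finset.mul_sum, ← Finset.mul_sum]
  congr 2
  rw [Finset.sum_boole]

end gen

/-- `∑ s, conj (x s) x (g s)` -/
noncomputable def RR (x : Equiv.Perm (Fin 4) → ℂ) (g : Equiv.Perm (Fin 4)) : ℂ :=
  ∑ s, star (x s) * x (g * s)

/-- the trivial action -/
def tr (_ : Equiv.Perm (Fin 4)) (i : Unit) : Unit := i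

/-- the natural action -/
def nat4 (g : Equiv.Perm (Fin 4)) (i : Fin 4) : Fin 4 := g i

/-- trivial weight -/
noncomputable def one4 (_ : Equiv.Perm (Fin 4)) : ℂ := 1

lemma class_C (ρ : Equiv.Perm (Fin 4)) :
    24 * (if ρ = 1 then (1 : ℂ) else 0) + 4 + 2 * sg ρ =
      3 * ((Finset.univ.filter (fun i => nat4 ρ i = i)).card : ℂ) * (1 + sg ρ) +
      2 * ((Finset.univ.filter (fun m => mact ρ m = m)).card : ℂ) := by
  have h := class_identity ρ
  have h2 := congrArg (fun z : ℤ => (z : ℂ)) h
  simp only [sg, nat4]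
  push_cast at h2
  exact h2

lemma ident (x : Equiv.Perm (Fin 4) → ℂ) (g : Equiv.Perm (Fin 4)) :
    24 * RR x g + 4 * (star (∑ s, x s) * (∑ s, x s)) +
      2 * (sg g * (star (∑ s, sg s * x s) * (∑ s, sg s * x s))) =
    3 * (∑ j, ∑ i, star (cc nat4 one4 x j i) * cc nat4 one4 x j (g i)) +
    3 * (∑ j, ∑ i, star (cc nat4 sg x j i) * (sg g * cc nat4 sg x j (g i))) +
    2 * (∑ j, ∑ i, star (cc mact one4 x j i) * cc mact one4 x j (mact g i)) := by
  have k1 := key nat4 (fun g s i => rfl) (fun i => rfl) one4 (fun g s => by simp [one4])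
    (fun g => by simp [one4]) (fun g => rfl) x g
  have k2 := key nat4 (fun g s i => rfl) (fun i => rfl) sg sg_mul star_sg sg_inv x g
  have k3 := key mact mact_mul mact_one one4 (fun g s => by simp [one4])
    (fun g => by simp [one4]) (fun g => rfl) x g
  have k4 := key tr (fun g s i => rfl) (fun i => rfl) one4 (fun g s => by simp [one4])
    (fun g => by simp [one4]) (fun g => rfl) x g
  have k5 := key tr (fun g s i => rfl) (fun i => rfl) sg sg_mul star_sg sg_inv x g
  have k6 : RR x g = ∑ s, ∑ t, star (x s) * x t *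
      (if (g * s)⁻¹ * t = 1 then (1 : ℂ) else 0) := by
    refine Finset.sum_congr rfl fun s _ => ?_
    rw [Finset.sum_eq_single (g * s)]
    · simp
    · intro t _ ht
      rw [if_neg, mul_zero]
      intro h
      apply ht
      rw [inv_mul_eq_one] at h
      exact h.symm
    · intro h
      exact absurd (Finset.mem_univ _) h
  have c4 : ∀ a b : Unit, cc tr one4 x a b = ∑ s, x s := by
    intro a b
    simp [cc, one4]
  have c5 : ∀ a b : Unit, cc tr sg x a b = ∑ s, sg s * x s := by
    intro a b
    simp [cc]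
  have n4 : ∀ ρ : Equiv.Perm (Fin 4), ((Finset.univ.filter (fun i => tr ρ i = i)).card : ℂ) = 1 := by
    intro ρ
    simp [tr]
  simp only [c4, c5, Finset.univ_unique, Finset.sum_const, Finset.card_singleton, one_smul,
    one4, one_mul] at k4 k5
  simp only [Finset.filter_true, Finset.card_singleton, Nat.cast_one, mul_one] at k4 k5
  simp only [one4, one_mul, nat4] at k1 k2 k3
  have k2' : ∑ j, ∑ i, star (cc nat4 sg x j i) * (sg g * cc nat4 sg x j (g i)) =
      ∑ s, ∑ t, star (x s) * x t * (sg ((g * s)⁻¹ * t) *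
        ((Finset.univ.filter (fun i => ((g * s)⁻¹ * t) i = i)).card : ℂ)) := k2
  have k1' : ∑ j, ∑ i, star (cc nat4 one4 x j i) * cc nat4 one4 x j (g i) =
      ∑ s, ∑ t, star (x s) * x t *
        ((Finset.univ.filter (fun i => ((g * s)⁻¹ * t) i = i)).card : ℂ) := k1
  have k3' : ∑ j, ∑ i, star (cc mact one4 x j i) * cc mact one4 x j (mact g i) =
      ∑ s, ∑ t, star (x s) * x t *
        ((Finset.univ.filter (fun m => mact ((g * s)⁻¹ * t) m = m)).card : ℂ) := k3
  have k5' : sg g * (star (∑ s, sg s * x s) * (∑ s, sg s * x s)) =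
      ∑ s, ∑ t, star (x s) * x t * sg ((g * s)⁻¹ * t) := by
    rw [← k5]; ring
  rw [k1', k2', k3', k4, k5', k6]
  simp only [Finset.mul_sum, ← Finset.sum_add_distrib]
  refine Finset.sum_congr rfl fun s _ => ?_
  refine Finset.sum_congr rfl fun t _ => ?_
  have := class_C ((g * s)⁻¹ * t)
  simp only [nat4] at this
  linear_combination (star (x s) * x t) * this

lemma per_eq (A : Matrix (Fin 4) (Fin 4) ℂ) : ∑ g, mon A g = Matrix.permanent A := by
  rw [Matrix.permanent, ← Equiv.sum_comp (Equiv.inv (Equiv.Perm (Fin 4)))]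
  refine Finset.sum_congr rfl fun g _ => ?_
  rw [mon, ← Equiv.prod_comp g]
  refine Finset.prod_congr rfl fun i _ => ?_
  simp

lemma row_eq (A : Matrix (Fin 4) (Fin 4) ℂ) (y : Equiv.Perm (Fin 4) → ℂ) (s : Equiv.Perm (Fin 4)) :
    (Matrix.of (fun (σ : Equiv.Perm (Fin 4)) (τ : Equiv.Perm (Fin 4)) =>
            ∏ t : Fin 4, A (σ t) (τ t))).mulVec y s = ∑ g, mon A g * y (g * s) := by
  rw [Matrix.mulVec, dotProduct, ← Equiv.sum_comp (Equiv.mulRight s)]
  refine Finset.sum_congr rfl fun g _ => ?_
  simp only [Matrix.of_apply, Equiv.coe_mulRight]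
  congr 1
  exact Equiv.prod_comp s (fun i => A i (g i))

/-- `f211` of a vector plus a constant -/
lemma f211_add (A : Matrix (Fin 4) (Fin 4) ℂ) (u : Fin 4 → ℂ) (hu : ∑ i, u i = 0) (k : ℂ) :
    f211 A (fun i => u i + k) = f211 A u + 4 * (star k * k) * ∑ g, mon A g * (1 - sg g) := by
  rw [f211, f211, Finset.mul_sum, ← Finset.sum_add_distrib]
  refine Finset.sum_congr rfl fun g _ => ?_
  have hg : ∑ i, u (g i) = 0 := by rw [Equiv.sum_comp g u, hu]
  have hs : ∑ i, star (u i) = 0 := by rw [← star_sum, hu, star_zero]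
  have e : ∑ i, star (u i + k) * (u i + k - sg g * (u (g i) + k)) =
      ∑ i, star (u i) * (u i - sg g * u (g i)) + (∑ i, star (u i)) * (k * (1 - sg g)) +
        star k * ((∑ i, u i) - sg g * ∑ i, u (g i)) + 4 * (star k * k) * (1 - sg g) := by
    simp only [Fin.sum_univ_four, star_add]
    ring
  rw [hu, hg, hs] at e
  have e' : ∑ i, star (u i + k) * (u i + k - (((Equiv.Perm.sign g : ℤˣ) : ℤ) : ℂ) * (u (g i) + k)) =
      ∑ i, star (u i) * (u i - (((Equiv.Perm.sign g : ℤˣ) : ℤ) : ℂ) * u (g i)) +
        4 * (star k * k) * (1 - sg g) := by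
    have := e
    simp only [sg] at this ⊢
    rw [this]
    ring
  rw [e']
  ring

theorem target_of (h31 : P31) (h211 : P211) (h22 : P22) : Target := by
  intro A hA
  refine ⟨?_, ?_⟩
  · funext s
    rw [row_eq]
    simp [per_eq]
  · intro μ x hx hmu
    -- the norm
    have hN : 0 < ∑ s, Complex.normSq (x s) := by
      refine lt_of_le_of_ne (Finset.sum_nonneg fun s _ => Complex.normSq_nonneg _) ?_
      intro h
      apply hx
      funext s
      have := (Finset.sum_eq_zero_iff_of_nonneg (fun s _ => Complex.normSq_nonneg (x s))).1 h.symm s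
        (Finset.mem_univ _)
      exact Complex.normSq_eq_zero.1 this
    have hR1 : RR x 1 = ((∑ s, Complex.normSq (x s) : ℝ) : ℂ) := by
      rw [RR]
      push_cast
      refine Finset.sum_congr rfl fun s _ => ?_
      rw [one_mul, Complex.normSq_eq_conj_mul_self]
      rfl
    -- the eigenvalue equation
    have hq : ∑ g, mon A g * RR x g = μ * RR x 1 := by
      have h1 : ∀ s, ∑ g, mon A g * x (g * s) = μ * x s := by
        intro s
        have := congrFun hmu s
        rw [row_eq] at this
        simpa using this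
      calc ∑ g, mon A g * RR x g = ∑ g, ∑ s, star (x s) * (mon A g * x (g * s)) := by
            refine Finset.sum_congr rfl fun g _ => ?_
            rw [RR, Finset.mul_sum]
            refine Finset.sum_congr rfl fun s _ => ?_
            ring
        _ = ∑ s, star (x s) * ∑ g, mon A g * x (g * s) := by
            rw [Finset.sum_comm]
            refine Finset.sum_congr rfl fun s _ => ?_
            rw [Finset.mul_sum]
        _ = μ * RR x 1 := by
            rw [RR, Finset.mul_sum]
            refine Finset.sum_congr rfl fun s _ => ?_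
            rw [h1 s, one_mul]
            ring
    set ε : ℂ := ∑ s, sg s * x s with hε
    -- the big identity
    have hid : 24 * (Matrix.permanent A * RR x 1 - μ * RR x 1) +
        2 * ((star ε * ε) * ∑ g, mon A g * (1 - sg g)) =
        3 * (∑ j, f31 A (fun i => cc nat4 one4 x j i)) +
        3 * (∑ j, f211 A (fun i => cc nat4 sg x j i)) +
        2 * (∑ m, f22 A (fun k => cc mact one4 x m k)) := by
      have hg : ∀ g, mon A g * (24 * (RR x 1 - RR x g) + 2 * ((star ε * ε) * (1 - sg g))) =
          3 * ∑ j, mon A g * ∑ i, star (cc nat4 one4 x j i) *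
            (cc nat4 one4 x j i - cc nat4 one4 x j (g i)) +
          3 * ∑ j, mon A g * ∑ i, star (cc nat4 sg x j i) *
            (cc nat4 sg x j i - sg g * cc nat4 sg x j (g i)) +
          2 * ∑ j, mon A g * ∑ i, star (cc mact one4 x j i) *
            (cc mact one4 x j i - cc mact one4 x j (mact g i)) := by
        intro g
        have i1 := ident x 1
        have ig := ident x g
        simp only [sg_one, one_mul, Equiv.Perm.coe_one, id_eq, mact_one] at i1
        simp only [mul_sub, Finset.sum_sub_distrib, ← Finset.mul_sum]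
        rw [← hε] at i1 ig
        linear_combination (mon A g) * (i1 - ig)
      have hsum := Finset.sum_congr (rfl : (Finset.univ : Finset (Equiv.Perm (Fin 4))) = _)
        fun g _ => hg g
      simp only [Finset.sum_add_distrib, ← Finset.mul_sum] at hsum
      have swap : ∀ (I : Type) [Fintype I] (h : I → Equiv.Perm (Fin 4) → ℂ),
          ∑ g, mon A g * ∑ j, h j g = ∑ j, ∑ g, mon A g * h j g := by
        intro I _ h
        rw [Finset.sum_comm]
        refine Finset.sum_congr rfl fun g _ => ?_
        rw [Finset.mul_sum]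
      rw [swap (Fin 4) (fun j g => ∑ i, star (cc nat4 one4 x j i) *
            (cc nat4 one4 x j i - cc nat4 one4 x j (g i))),
          swap (Fin 4) (fun j g => ∑ i, star (cc nat4 sg x j i) *
            (cc nat4 sg x j i - sg g * cc nat4 sg x j (g i))),
          swap (Fin 3) (fun j g => ∑ i, star (cc mact one4 x j i) *
            (cc mact one4 x j i - cc mact one4 x j (mact g i)))] at hsum
      have hl : ∑ g, mon A g * (24 * (RR x 1 - RR x g) + 2 * ((star ε * ε) * (1 - sg g))) =
          24 * (Matrix.permanent A * RR x 1 - μ * RR x 1) +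
        2 * ((star ε * ε) * ∑ g, mon A g * (1 - sg g)) := by
        rw [← per_eq, ← hq]
        simp only [Finset.mul_sum, Finset.sum_mul, ← Finset.sum_sub_distrib,
          ← Finset.sum_add_distrib]
        refine Finset.sum_congr rfl fun g _ => ?_
        ring
      rw [← hl, hsum]
      rfl
    -- the twisted forms
    have htw : ∀ j, ∃ z : ℂ, 0 ≤ z.re ∧ f211 A (fun i => cc nat4 sg x j i) =
        z + 4 * (star (ε / 4) * (ε / 4)) * ∑ g, mon A g * (1 - sg g) := by
      intro j
      refine ⟨f211 A (fun i => cc nat4 sg x j i - ε / 4), h211 A hA _, ?_⟩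
      rw [← f211_add A (fun i => cc nat4 sg x j i - ε / 4) ?_ (ε / 4)]
      · simp
      · rw [Finset.sum_sub_distrib]
        have : ∑ i, cc nat4 sg x j i = ε := by
          simp only [cc]
          rw [Finset.sum_comm, hε]
          refine Finset.sum_congr rfl fun s _ => ?_
          rw [Finset.sum_ite_eq, if_pos (Finset.mem_univ _)]
        rw [this]
        simp only [Finset.sum_const, Finset.card_univ, Fintype.card_fin, nsmul_eq_mul]
        push_cast
        ring
    choose z hz hzz using htw
    have hpd : 0 ≤ (∑ g, mon A g * (1 - sg g)).re := by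
      have h1 := h211 A hA (fun _ => 1)
      have h2 : f211 A (fun _ => 1) = 4 * ∑ g, mon A g * (1 - sg g) := by
        rw [f211, Finset.mul_sum]
        refine Finset.sum_congr rfl fun g _ => ?_
        simp only [star_one, one_mul, mul_one, Finset.sum_const, Finset.card_univ,
          Fintype.card_fin, nsmul_eq_mul, sg]
        push_cast
        ring
      rw [h2, show (4 : ℂ) = ((4 : ℝ) : ℂ) by norm_num, Complex.re_ofReal_mul] at h1
      linarith
    have hee : star ε * ε = ((Complex.normSq ε : ℝ) : ℂ) := by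
      rw [Complex.normSq_eq_conj_mul_self]
      rfl
    have hee4 : star (ε / 4) * (ε / 4) = ((Complex.normSq ε / 16 : ℝ) : ℂ) := by
      push_cast
      rw [Complex.normSq_eq_conj_mul_self]
      simp only [star_div₀]
      have : star (4 : ℂ) = 4 := by
        simp
      rw [this]
      simp only [Complex.star_def]
      ring
    rw [Finset.sum_congr rfl fun j _ => hzz j, Finset.sum_add_distrib, hee, hee4, hR1] at hid
    simp only [Finset.sum_const, Finset.card_univ, Fintype.card_fin, nsmul_eq_mul] at hid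
    set D : ℂ := ∑ g, mon A g * (1 - sg g) with hD
    set N : ℝ := ∑ s, Complex.normSq (x s) with hNdef
    set E : ℝ := Complex.normSq ε with hE
    have hfin : 24 * ((Matrix.permanent A - μ) * ((N : ℝ) : ℂ)) =
        3 * (∑ j, f31 A (fun i => cc nat4 one4 x j i)) + 3 * ∑ j, z j +
        2 * (∑ m, f22 A (fun k => cc mact one4 x m k)) + ((E : ℝ) : ℂ) * D := by
      push_cast at hid
      linear_combination hid
    have hre := congrArg Complex.re hfin
    have r24 : (24 * ((Matrix.permanent A - μ) * ((N : ℝ) : ℂ))).re =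
        24 * ((Matrix.permanent A).re - μ.re) * N := by
      rw [show (24 : ℂ) = ((24 : ℝ) : ℂ) by norm_num, Complex.re_ofReal_mul,
        Complex.re_mul_ofReal, Complex.sub_re]
      ring
    have rr : (3 * (∑ j, f31 A (fun i => cc nat4 one4 x j i)) + 3 * ∑ j, z j +
        2 * (∑ m, f22 A (fun k => cc mact one4 x m k)) + ((E : ℝ) : ℂ) * D).re =
        3 * (∑ j, (f31 A (fun i => cc nat4 one4 x j i)).re) + 3 * ∑ j, (z j).re +
        2 * (∑ m, (f22 A (fun k => cc mact one4 x m k)).re) + E * D.re := by
      rw [show (3 : ℂ) = ((3 : ℝ) : ℂ) by norm_num, show (2 : ℂ) = ((2 : ℝ) : ℂ) by norm_num]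
      simp only [Complex.add_re, Complex.re_ofReal_mul, Complex.re_sum]
    rw [r24, rr] at hre
    have hnn : 0 ≤ 24 * ((Matrix.permanent A).re - μ.re) * N := by
      rw [hre]
      have a1 : 0 ≤ ∑ j, (f31 A (fun i => cc nat4 one4 x j i)).re :=
        Finset.sum_nonneg fun j _ => h31 A hA _
      have a2 : 0 ≤ ∑ j, (z j).re := Finset.sum_nonneg fun j _ => hz j
      have a3 : 0 ≤ ∑ m, (f22 A (fun k => cc mact one4 x m k)).re :=
        Finset.sum_nonneg fun j _ => h22 A hA _
      have a4 : 0 ≤ E * D.re := mul_nonneg (Complex.normSq_nonneg _) hpd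
      linarith
    by_contra hcon
    have hlt : (Matrix.permanent A).re < μ.re := lt_of_not_ge hcon
    have : 24 * ((Matrix.permanent A).re - μ.re) * N < 0 := by
      have h24 : 24 * ((Matrix.permanent A).re - μ.re) < 0 := by linarith
      exact mul_neg_of_neg_of_pos h24 hN
    linarith

end Pool.Agent.W899.POT
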